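import Pool.Agent.Helper56.EZ.Main

set_option autoImplicit false

open Pool.Agent.Helper56.EZ

namespace Pool.Agent.Results.MP_d44e55_gt.NonEquivariant

theorem general (F : FData) (g : F.Γ) (h01 : (g : SL2).1 0 1 = 0) (h10 : (g : SL2).1 1 0 = 0)
    (hg : ∀ n : ℕ, 0 < n → g ^ n ≠ 1) (hne : ∀ k ∈ F.Γ, k.1 1 1 ≠ 0)
    (hyp1 : ∃ S : Finset F.Γ, Subgroup.closure (S : Set F.Γ) = ⊤)
    (hyp2 : ∀ S : Finset F.Γ, Subgroup.closure (S : Set F.Γ) = ⊤ →
      IsGromovHyperbolic (S : Set F.Γ)) :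
    ∃ (G : Type) (_ : Group G), IsHyperbolicGroup G ∧ ∃ E : EZStructure G,
      (∃ e : E.carrier ≃ₜ Metric.closedBall (0 : ℂ) 1,
        ∀ x : E.carrier, x ∈ E.bdry ↔ ‖((e x : Metric.closedBall (0 : ℂ) 1) : ℂ)‖ = 1) ∧
      ∀ S : GenSet G,
        (¬ ∃ φ : E.bdry ≃ₜ GromovBoundary S, ∀ (g : G) (z : E.bdry),
          φ (E.act g z) = GromovBoundary.act g (φ z)) ∧
        (¬ ∃ φ : E.bdry → GromovBoundary S, Function.Injective φ ∧ ∀ (g : G) (z : E.bdry),
          φ (E.act g z) = GromovBoundary.act g (φ z)) := by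
  obtain ⟨a, b, c, ha, hb, hc, ga, gb, gc, hab, hbc, hac⟩ := F.three_fixed g h01 h10 hne
  have key : ∀ S : GenSet F.Γ, ¬ ∃ φ : F.ez.bdry → GromovBoundary S,
      Function.Injective φ ∧ ∀ (g : F.Γ) (z : F.ez.bdry),
        φ (F.ez.act g z) = GromovBoundary.act g (φ z) := by
    rintro S ⟨φ, hinj, hφ⟩
    have fixed : ∀ z : F.ez.bdry, g • z.1 = z.1 → GromovBoundary.act g (φ z) = φ z := by
      intro z hz
      rw [← hφ]
      exact congrArg φ (Subtype.ext hz)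
    rcases fixed_le_two S (hyp2 S.1 S.2) g hg (φ ⟨a, ha⟩) (φ ⟨b, hb⟩) (φ ⟨c, hc⟩)
      (fixed ⟨a, ha⟩ ga) (fixed ⟨b, hb⟩ gb) (fixed ⟨c, hc⟩ gc) with h | h | h
    · exact hab (congrArg Subtype.val (hinj h))
    · exact hbc (congrArg Subtype.val (hinj h))
    · exact hac (congrArg Subtype.val (hinj h))
  refine ⟨F.Γ, inferInstance, ?_, F.ez, ?_, fun S => ⟨?_, key S⟩⟩
  · obtain ⟨S, hS⟩ := hyp1
    exact ⟨⟨S, hS⟩, hyp2 S hS⟩
  · refine ⟨F.psiHomeo, fun x => ?_⟩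
    have := F.bdry_eq
    show x ∈ F.Bdry ↔ _
    rw [this]
    rfl
  · rintro ⟨φ, hφ⟩
    exact key S ⟨φ, φ.injective, hφ⟩

/-- There are a hyperbolic group `G` and an `EZ`-structure on `G` (the space is a disc, the
`EZ`-boundary its boundary circle) such that no homeomorphism from the `EZ`-boundary to the
Gromov boundary of `G` is equivariant; there is not even an injective equivariant map. -/
theorem result :
    ∃ (G : Type) (_ : Group G), IsHyperbolicGroup G ∧ ∃ E : EZStructure G,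
      (∃ e : E.carrier ≃ₜ Metric.closedBall (0 : ℂ) 1,
        ∀ x : E.carrier, x ∈ E.bdry ↔ ‖((e x : Metric.closedBall (0 : ℂ) 1) : ℂ)‖ = 1) ∧
      ∀ S : GenSet G,
        (¬ ∃ φ : E.bdry ≃ₜ GromovBoundary S, ∀ (g : G) (z : E.bdry),
          φ (E.act g z) = GromovBoundary.act g (φ z)) ∧
        (¬ ∃ φ : E.bdry → GromovBoundary S, Function.Injective φ ∧ ∀ (g : G) (z : E.bdry),
          φ (E.act g z) = GromovBoundary.act g (φ z)) := by
  obtain ⟨g, h01, h10, hg⟩ := exists_diag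
  exact general quatData g h01 h10 hg quat_ne quat_hyperbolic.1 quat_hyperbolic.2

end Pool.Agent.Results.MP_d44e55_gt.NonEquivariant
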